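import Mathlib
import Pool.Agent.helper68.B2.Defs
import Pool.Agent.helper25.B2.GDefs
import Pool.Agent.helper97.B2.T3a

/-! # MP_b2b189_gt: module T9a, nonreal roots -/

set_option autoImplicit false

namespace Pool.Agent.helper68.B2

open scoped ContDiff Topology Matrix
open Matrix Set Filter

section alg

variable {K : Type*} [Field K]

theorem T9a_adj_comm {G A : Matrix (Fin 3) (Fin 3) K} (hG : Gᵀ = G) (hA : (G * A)ᵀ = G * A) :
    G.adjugate * (A.adjugate)ᵀ = A.adjugate * G.adjugate := by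
  have h1 : Aᵀ * G = G * A := by
    rw [← hA, Matrix.transpose_mul, hG]
  have := congrArg Matrix.adjugate h1
  rw [Matrix.adjugate_mul_distrib, Matrix.adjugate_mul_distrib, ← Matrix.adjugate_transpose] at this
  exact this

theorem T9a_minor {N : Matrix (Fin 3) (Fin 3) K} (h : N.adjugate = 0) (i j k l : Fin 3) :
    N i j * N k l = N i l * N k j := by
  rw [Matrix.adjugate_fin_three] at h
  have h00 := congrFun (congrFun h 0) 0
  have h01 := congrFun (congrFun h 0) 1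
  have h02 := congrFun (congrFun h 0) 2
  have h10 := congrFun (congrFun h 1) 0
  have h11 := congrFun (congrFun h 1) 1
  have h12 := congrFun (congrFun h 1) 2
  have h20 := congrFun (congrFun h 2) 0
  have h21 := congrFun (congrFun h 2) 1
  have h22 := congrFun (congrFun h 2) 2
  simp at h00 h01 h02 h10 h11 h12 h20 h21 h22
  fin_cases i <;> fin_cases j <;> fin_cases k <;> fin_cases l <;> simp <;>
    first
      | ring1
      | linear_combination h00
      | linear_combination h01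
      | linear_combination h02
      | linear_combination h10
      | linear_combination h11
      | linear_combination h12
      | linear_combination h20
      | linear_combination h21
      | linear_combination h22
      | linear_combination -h00
      | linear_combination -h01
      | linear_combination -h02
      | linear_combination -h10
      | linear_combination -h11
      | linear_combination -h12
      | linear_combination -h20
      | linear_combination -h21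
      | linear_combination -h22

/-- rank one factorization of the adjugate -/
theorem T9a_fact {G A : Matrix (Fin 3) (Fin 3) K} (hG : Gᵀ = G) (hGd : G.det ≠ 0)
    (hA : (G * A)ᵀ = G * A) (hd : A.det = 0) (i : Fin 3) (s : K) (hs : s ≠ 0)
    (hss : s * s = G.det * (A.adjugate * G.adjugate) i i) :
    A.adjugate = vecMulVec (fun j => s⁻¹ * (A.adjugate * G.adjugate) j i)
      (G *ᵥ fun j => s⁻¹ * (A.adjugate * G.adjugate) j i) := by
  set N := A.adjugate * G.adjugate with hN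
  have hNs : Nᵀ = N := by
    rw [hN, Matrix.transpose_mul, Matrix.adjugate_transpose, hG]
    exact T9a_adj_comm hG hA
  have hNadj : N.adjugate = 0 := by
    rw [hN, Matrix.adjugate_mul_distrib, Matrix.adjugate_adjugate A (by simp), hd]
    simp
  have hNG : N * G = G.det • A.adjugate := by
    rw [hN, Matrix.mul_assoc, Matrix.adjugate_mul, Matrix.mul_smul, Matrix.mul_one]
  have hNii : N i i ≠ 0 := by
    intro h
    rw [h, mul_zero] at hss
    exact hs (mul_self_eq_zero.1 hss)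
  have hsymm' : ∀ a b, N a b = N b a := fun a b => congrFun (congrFun hNs b) a
  have hmin := T9a_minor hNadj
  have hGs : ∀ a b, G a b = G b a := fun a b => congrFun (congrFun hG b) a
  apply smul_right_injective _ hGd
  simp only
  rw [← hNG]
  ext j k
  have e1 : ∀ l, N j l = N j i * N l i / N i i := by
    intro l
    rw [eq_div_iff hNii, hsymm' l i]
    exact hmin j l i i
  rw [Matrix.mul_apply]
  simp only [Matrix.smul_apply, smul_eq_mul, Matrix.vecMulVec_apply, Matrix.mulVec, dotProduct]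
  have e2 : ∀ l, N j l * G l k = (N j i / N i i) * (G k l * N l i) := by
    intro l
    rw [e1 l, hGs k l]
    ring
  rw [Finset.sum_congr rfl (fun l _ => e2 l), ← Finset.mul_sum]
  have e3 : ∑ l, G k l * (s⁻¹ * N l i) = s⁻¹ * ∑ l, G k l * N l i := by
    rw [Finset.mul_sum]
    apply Finset.sum_congr rfl
    intro l _
    ring
  rw [e3]
  set Q := ∑ l, G k l * N l i with hQ
  have e4 : G.det * (s⁻¹ * N j i * (s⁻¹ * Q)) = G.det * N j i * Q * (s * s)⁻¹ := by
    rw [mul_inv]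
    ring
  rw [e4, hss]
  field_simp

theorem T9a_diag {G A : Matrix (Fin 3) (Fin 3) K} (hG : Gᵀ = G) (hGd : G.det ≠ 0)
    (hA : (G * A)ᵀ = G * A) (hd : A.det = 0) (h0 : A.adjugate ≠ 0) :
    ∃ i, (A.adjugate * G.adjugate) i i ≠ 0 := by
  set N := A.adjugate * G.adjugate with hN
  have hNs : Nᵀ = N := by
    rw [hN, Matrix.transpose_mul, Matrix.adjugate_transpose, hG]
    exact T9a_adj_comm hG hA
  have hNadj : N.adjugate = 0 := by
    rw [hN, Matrix.adjugate_mul_distrib, Matrix.adjugate_adjugate A (by simp), hd]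
    simp
  have hNG : N * G = G.det • A.adjugate := by
    rw [hN, Matrix.mul_assoc, Matrix.adjugate_mul, Matrix.mul_smul, Matrix.mul_one]
  by_contra hcon
  push Not at hcon
  have hN0 : N = 0 := by
    ext i j
    have h1 := T9a_minor hNadj i j j i
    rw [hcon i, zero_mul] at h1
    have h2 : N j i = N i j := congrFun (congrFun hNs i) j
    rw [h2] at h1
    exact mul_self_eq_zero.1 h1
  rw [hN0, Matrix.zero_mul] at hNG
  exact h0 ((smul_eq_zero.1 hNG.symm).resolve_left hGd)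

theorem T9a_adj_tr (A : Matrix (Fin 3) (Fin 3) K) : A.adjugate.trace = A 1 1 * A 2 2 - A 1 2 * A 2 1
    + (A 0 0 * A 2 2 - A 0 2 * A 2 0) + (A 0 0 * A 1 1 - A 0 1 * A 1 0) := by
  rw [Matrix.adjugate_fin_three, Matrix.trace_fin_three]
  simp

theorem T9a_det_expand (A : Matrix (Fin 3) (Fin 3) K) (t : K) :
    (A - t • (1 : Matrix (Fin 3) (Fin 3) K)).det =
      A.det - t * A.adjugate.trace + t ^ 2 * A.trace - t ^ 3 := by
  rw [T9a_adj_tr, Matrix.trace_fin_three, Matrix.det_fin_three, Matrix.det_fin_three]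
  simp [Matrix.sub_apply, Matrix.smul_apply]
  ring

theorem T9a_adj_expand (A : Matrix (Fin 3) (Fin 3) K) (t : K) :
    (A - t • (1 : Matrix (Fin 3) (Fin 3) K)).adjugate.trace =
      A.adjugate.trace - 2 * t * A.trace + 3 * t ^ 2 := by
  rw [T9a_adj_tr, T9a_adj_tr, Matrix.trace_fin_three]
  simp [Matrix.sub_apply, Matrix.smul_apply]
  ring

end alg

theorem T9a_cM_apply (A : M3) (i j : Fin 3) : cM A i j = ((A i j : ℝ) : ℂ) := rfl

theorem T9a_cM_det (A : M3) : (cM A).det = ((A.det : ℝ) : ℂ) :=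
  (RingHom.map_det (algebraMap ℝ ℂ) A).symm

theorem T9a_cM_trace (A : M3) : (cM A).trace = ((A.trace : ℝ) : ℂ) := by
  rw [Matrix.trace_fin_three, Matrix.trace_fin_three]
  simp [T9a_cM_apply]

theorem T9a_cM_adj (A : M3) : (cM A).adjugate = cM A.adjugate :=
  (RingHom.map_adjugate (algebraMap ℝ ℂ) A).symm

theorem T9a_cM_adjtr (A : M3) : (cM A).adjugate.trace = ((A.adjugate.trace : ℝ) : ℂ) := by
  rw [T9a_cM_adj, T9a_cM_trace]

theorem T9a_cM_mul (A B : M3) : cM (A * B) = cM A * cM B := by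
  unfold cM
  exact Matrix.map_mul

theorem T9a_cM_transpose (A : M3) : (cM A)ᵀ = cM Aᵀ := rfl

theorem T9a_simple (A : M3) {z : ℂ} (hz : z.im ≠ 0)
    (hroot : (cM A - z • (1 : Matrix (Fin 3) (Fin 3) ℂ)).det = 0) :
    (cM A - z • (1 : Matrix (Fin 3) (Fin 3) ℂ)).adjugate.trace ≠ 0 := by
  intro hq
  rw [T9a_det_expand, T9a_cM_det, T9a_cM_adjtr, T9a_cM_trace] at hroot
  rw [T9a_adj_expand, T9a_cM_adjtr, T9a_cM_trace] at hq
  have h1 := congrArg (starRingEnd ℂ) hroot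
  have h2 := congrArg (starRingEnd ℂ) hq
  simp only [map_sub, map_add, map_mul, map_pow, Complex.conj_ofReal, map_zero, map_ofNat] at h1 h2
  set w := starRingEnd ℂ z with hw
  set a : ℂ := ((A.det : ℝ) : ℂ)
  set b : ℂ := ((A.adjugate.trace : ℝ) : ℂ)
  set c : ℂ := ((A.trace : ℝ) : ℂ)
  have hne : z - w ≠ 0 := by
    intro h
    apply hz
    have h3 := congrArg Complex.im h
    simp [hw] at h3
    linarith
  have e1 : z ^ 2 + z * w + w ^ 2 - c * (z + w) + b = 0 := by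
    apply mul_left_cancel₀ hne
    linear_combination -hroot + h1
  have e2 : 2 * z + w - c = 0 := by
    apply mul_left_cancel₀ hne
    linear_combination hq - e1
  have e3 : 2 * w + z - c = 0 := by
    apply mul_left_cancel₀ hne
    linear_combination e1 - h2
  apply hne
  linear_combination e2 - e3

/-- the function `(x, z) ↦ det (L x - z)` -/
noncomputable def T9a_F (S : Geo) (p : E4 × ℂ) : ℂ :=
  (((S.L p.1).det : ℝ) : ℂ) - p.2 * (((S.L p.1).adjugate.trace : ℝ) : ℂ)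
    + p.2 ^ 2 * (((S.L p.1).trace : ℝ) : ℂ) - p.2 ^ 3

theorem T9a_F_eq (S : Geo) (x : E4) (z : ℂ) :
    T9a_F S (x, z) = (cM (S.L x) - z • (1 : Matrix (Fin 3) (Fin 3) ℂ)).det := by
  rw [T9a_det_expand, T9a_cM_det, T9a_cM_adjtr, T9a_cM_trace]
  rfl

theorem T9a_ofReal {E : Type*} [NormedAddCommGroup E] [NormedSpace ℝ E] {f : E → ℝ} {x : E}
    (hf : ContDiffAt ℝ ∞ f x) : ContDiffAt ℝ ∞ (fun y => ((f y : ℝ) : ℂ)) x :=
  Complex.ofRealCLM.contDiff.contDiffAt.comp x hf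

theorem T9a_F_smooth (S : Geo) {x : E4} (hx : x ≠ 0) (t : ℂ) : ContDiffAt ℝ ∞ (T9a_F S) (x, t) := by
  have hL : ContDiffAt ℝ ∞ (fun p : E4 × ℂ => S.L p.1) (x, t) :=
    ContDiffAt.comp (x, t) (T3a_L_smooth S hx) contDiffAt_fst
  have h1 : ContDiffAt ℝ ∞ (fun p : E4 × ℂ => (S.L p.1).det) (x, t) :=
    (T3a_det_smooth ∞).contDiffAt.comp (x, t) hL
  have h2 : ContDiffAt ℝ ∞ (fun p : E4 × ℂ => (S.L p.1).adjugate.trace) (x, t) :=
    (T3a_adj_smooth ∞).contDiffAt.comp (x, t) hL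
  have h3 : ContDiffAt ℝ ∞ (fun p : E4 × ℂ => (S.L p.1).trace) (x, t) :=
    (T3a_trace_smooth ∞).contDiffAt.comp (x, t) hL
  have h1' := T9a_ofReal h1
  have h2' := T9a_ofReal h2
  have h3' := T9a_ofReal h3
  unfold T9a_F
  exact ((h1'.sub (contDiffAt_snd.mul h2')).add ((contDiffAt_snd.pow 2).mul h3')).sub
    (contDiffAt_snd.pow 3)

/-- the partial derivative in `z` -/
theorem T9a_F_dz (S : Geo) {x : E4} (hx : x ≠ 0) (z : ℂ) :
    (fderiv ℝ (T9a_F S) (x, z) ∘L .inr ℝ E4 ℂ) =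
      (-(cM (S.L x) - z • (1 : Matrix (Fin 3) (Fin 3) ℂ)).adjugate.trace) •
        (ContinuousLinearMap.id ℝ ℂ) := by
  have hd : DifferentiableAt ℝ (T9a_F S) (x, z) := (T9a_F_smooth S hx z).differentiableAt (by simp)
  have h1 : HasFDerivAt (fun s : ℂ => T9a_F S (x, s))
      (fderiv ℝ (T9a_F S) (x, z) ∘L .inr ℝ E4 ℂ) z := by
    have hc : HasFDerivAt (fun s : ℂ => (x, s)) (.inr ℝ E4 ℂ) z :=
      (hasFDerivAt_const x z).prodMk (hasFDerivAt_id z)
    exact hd.hasFDerivAt.comp z hc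
  have h2 : HasDerivAt (fun s : ℂ => T9a_F S (x, s))
      (-((((S.L x).adjugate.trace : ℝ) : ℂ)) + 2 * z * (((S.L x).trace : ℝ) : ℂ) - 3 * z ^ 2) z := by
    unfold T9a_F
    have h3 := ((((hasDerivAt_const z ((((S.L x).det : ℝ) : ℂ))).sub
      ((hasDerivAt_id z).mul_const ((((S.L x).adjugate.trace : ℝ) : ℂ)))).add
      (((hasDerivAt_id z).pow 2).mul_const ((((S.L x).trace : ℝ) : ℂ)))).sub ((hasDerivAt_id z).pow 3))
    refine h3.congr_deriv ?_
    simp
  have h3 := h1.unique (h2.hasFDerivAt.restrictScalars ℝ)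
  rw [h3, T9a_adj_expand, T9a_cM_adjtr, T9a_cM_trace]
  ext <;> simp <;> ring

theorem T9a_inv {c : ℂ} (hc : c ≠ 0) : (c • (ContinuousLinearMap.id ℝ ℂ)).IsInvertible := by
  refine ⟨(ContinuousLinearEquiv.unitsEquivAut ℂ (Units.mk0 c hc)).restrictScalars ℝ, ?_⟩
  ext y
  simp [mul_comm]

/-- branch of the square root -/
theorem T9a_sqrt {w₀ : ℂ} (hw : w₀ ≠ 0) :
    ∃ (r : ℂ → ℂ) (U : Set ℂ), IsOpen U ∧ w₀ ∈ U ∧ ContDiffOn ℝ ∞ r U ∧
      ∀ w ∈ U, r w ≠ 0 ∧ r w * r w = w := by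
  obtain ⟨s, hs⟩ : ∃ s : ℂ, s * s = w₀ := by
    obtain ⟨s, hs⟩ := IsAlgClosed.exists_pow_nat_eq w₀ (n := 2) (by norm_num)
    exact ⟨s, by rw [← hs]; ring⟩
  have hs0 : s ≠ 0 := by
    rintro rfl
    apply hw
    rw [← hs]
    ring
  refine ⟨fun w => s * Complex.exp (Complex.log (w / w₀) / 2), (fun w => w / w₀) ⁻¹' Complex.slitPlane,
    ?_, ?_, ?_, ?_⟩
  · exact Complex.isOpen_slitPlane.preimage (by fun_prop)
  · simp [div_self hw, Complex.slitPlane]
  · intro w hw'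
    apply ContDiffAt.contDiffWithinAt
    have h1 : ContDiffAt ℂ ∞ (fun w : ℂ => s * Complex.exp (Complex.log (w / w₀) / 2)) w := by
      have h2 : ContDiffAt ℂ ∞ (fun w : ℂ => w / w₀) w := contDiffAt_id.div_const w₀
      have h3 : ContDiffAt ℂ ∞ (fun w : ℂ => Complex.log (w / w₀)) w := by
        have h5 : ContDiffAt ℂ ∞ Complex.log (w / w₀) := Complex.contDiffAt_log hw'
        exact ContDiffAt.comp (g := Complex.log) (f := fun w : ℂ => w / w₀) w h5 h2
      exact contDiffAt_const.mul (Complex.contDiff_exp.contDiffAt.comp w (h3.div_const 2))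
    exact h1.restrict_scalars ℝ
  · intro w hw'
    have hw2 : w / w₀ ≠ 0 := Complex.slitPlane_ne_zero hw'
    refine ⟨mul_ne_zero hs0 (Complex.exp_ne_zero _), ?_⟩
    have h4 : s * Complex.exp (Complex.log (w / w₀) / 2) * (s * Complex.exp (Complex.log (w / w₀) / 2)) =
        (s * s) * (Complex.exp (Complex.log (w / w₀) / 2) * Complex.exp (Complex.log (w / w₀) / 2)) := by
      ring
    rw [h4, ← Complex.exp_add, add_halves, Complex.exp_log hw2, hs]
    field_simp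

/-- radial projection to the sphere of radius `‖q‖` -/
noncomputable def T9a_N (q x : E4) : E4 := (‖q‖ / ‖x‖) • x

theorem T9a_N_self {q : E4} (hq : q ≠ 0) : T9a_N q q = q := by
  unfold T9a_N
  rw [div_self (norm_ne_zero_iff.2 hq), one_smul]

theorem T9a_N_hom (q : E4) (t : ℝ) (ht : 0 < t) (x : E4) : T9a_N q (t • x) = T9a_N q x := by
  unfold T9a_N
  rw [norm_smul, Real.norm_of_nonneg ht.le, smul_smul]
  congr 1
  rcases eq_or_ne ‖x‖ 0 with h | h
  · rw [h]; simp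
  · field_simp

theorem T9a_N_smooth (q : E4) {x : E4} (hx : x ≠ 0) : ContDiffAt ℝ ∞ (T9a_N q) x := by
  have : ‖x‖ ≠ 0 := norm_ne_zero_iff.2 hx
  exact ((contDiffAt_const).div (contDiffAt_norm ℝ hx) this).smul contDiffAt_id

theorem T9a_N_pos {q : E4} (hq : q ≠ 0) {x : E4} (hx : x ≠ 0) : 0 < ‖q‖ / ‖x‖ := by
  have h5 : 0 < ‖x‖ := norm_pos_iff.2 hx
  have h6 : 0 < ‖q‖ := norm_pos_iff.2 hq
  positivity

theorem T9a_exists (S : Geo) {q : E4} (hq : q ≠ 0) {z₀ : ℂ} (hz : z₀.im ≠ 0)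
    (hroot : (cM (S.L q) - z₀ • (1 : Matrix (Fin 3) (Fin 3) ℂ)).det = 0) :
    ∃ (W : Set E4) (z : E4 → ℂ), OCone W ∧ q ∈ W ∧ Hom z ∧ z q = z₀ ∧ ContDiffOn ℝ ∞ z W ∧
      ∀ x ∈ W, (z x).im ≠ 0 ∧ (cM (S.L x) - z x • (1 : Matrix (Fin 3) (Fin 3) ℂ)).det = 0 := by
  have hF := T9a_F_smooth S hq z₀
  have hinv : (fderiv ℝ (T9a_F S) (q, z₀) ∘L .inr ℝ E4 ℂ).IsInvertible := by
    rw [T9a_F_dz S hq]
    exact T9a_inv (neg_ne_zero.2 (T9a_simple _ hz hroot))
  have hn : (∞ : ℕ∞ω) ≠ 0 := by simp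
  have h1 := hF.contDiffAt_implicitFunction hn hinv
  have h2 := hF.eventually_apply_implicitFunction hn hinv
  have h3 := hF.implicitFunction_apply_self hn hinv
  set ψ := hF.implicitFunction hn hinv with hψ
  simp only at h1 h2 h3
  -- the good neighbourhood
  have hcont : ContinuousAt ψ q := h1.continuousAt
  have hev : ∀ᶠ y in 𝓝 q, ContDiffAt ℝ ∞ ψ y ∧ (ψ y).im ≠ 0 ∧
      (cM (S.L y) - ψ y • (1 : Matrix (Fin 3) (Fin 3) ℂ)).det = 0 := by
    have h4 : ∀ᶠ y in 𝓝 q, (ψ y).im ≠ 0 := by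
      have : ContinuousAt (fun y => (ψ y).im) q := Complex.continuous_im.continuousAt.comp hcont
      apply this.eventually_ne
      rw [h3]
      exact hz
    have h5 : ∀ᶠ y in 𝓝 q, ContinuousAt ψ y := by
      have := (h1.of_le (m := 1) (by simp)).eventually (by simp)
      filter_upwards [this] with y hy using hy.continuousAt
    have hq0 : ∀ᶠ y in 𝓝 q, y ≠ 0 := isOpen_compl_singleton.mem_nhds hq
    have hdet : ∀ᶠ y in 𝓝 q, (cM (S.L y) - ψ y • (1 : Matrix (Fin 3) (Fin 3) ℂ)).det = 0 := by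
      filter_upwards [h2] with y hy
      rw [← T9a_F_eq, hy, T9a_F_eq, hroot]
    obtain ⟨V, hV, hVo, hqV⟩ := eventually_nhds_iff.1 (h4.and (h5.and (hq0.and hdet)))
    have hsm : ContDiffOn ℝ ∞ ψ V := by
      intro x hx
      apply ContDiffAt.contDiffWithinAt
      obtain ⟨hxi, hxc, hx0, hxr⟩ := hV x hx
      have hF' := T9a_F_smooth S hx0 (ψ x)
      have hinv' : (fderiv ℝ (T9a_F S) (x, ψ x) ∘L .inr ℝ E4 ℂ).IsInvertible := by
        rw [T9a_F_dz S hx0]
        exact T9a_inv (neg_ne_zero.2 (T9a_simple _ hxi hxr))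
      have h1' := hF'.contDiffAt_implicitFunction hn hinv'
      refine h1'.congr_of_eventuallyEq ?_
      have h2' := hF'.eventually_apply_eq_iff_implicitFunction hn hinv'
      have hc : Tendsto (fun y => (y, ψ y)) (𝓝 x) (𝓝 (x, ψ x)) := continuousAt_id.prodMk hxc
      filter_upwards [hc.eventually h2', hVo.mem_nhds hx] with y hy hyW
      have e1 : T9a_F S (y, ψ y) = T9a_F S (x, ψ x) := by
        rw [T9a_F_eq, T9a_F_eq, hxr, (hV y hyW).2.2.2]
      exact (hy.1 e1).symm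
    filter_upwards [hVo.mem_nhds hqV] with y hy
    exact ⟨(hsm y hy).contDiffAt (hVo.mem_nhds hy), (hV y hy).1, (hV y hy).2.2.2⟩
  obtain ⟨V, hV, hVo, hqV⟩ := eventually_nhds_iff.1 hev
  have hLN : ∀ x, x ≠ 0 → S.L (T9a_N q x) = S.L x := by
    intro x hx
    exact S.homL _ (T9a_N_pos hq hx) x
  refine ⟨{x | x ≠ 0 ∧ T9a_N q x ∈ V}, fun x => ψ (T9a_N q x), ⟨?_, ?_, ?_⟩, ?_, ?_, ?_, ?_, ?_⟩
  · rw [isOpen_iff_mem_nhds]
    rintro x ⟨hx, hxV⟩
    have h7 : ∀ᶠ y in 𝓝 x, y ≠ 0 := isOpen_compl_singleton.mem_nhds hx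
    have h8 : ∀ᶠ y in 𝓝 x, T9a_N q y ∈ V :=
      (T9a_N_smooth q hx).continuousAt.eventually (hVo.mem_nhds hxV)
    exact h7.and h8
  · rintro ⟨h, -⟩
    exact h rfl
  · rintro x ⟨hx, hxV⟩ t ht
    exact ⟨smul_ne_zero ht.ne' hx, by rw [T9a_N_hom q t ht]; exact hxV⟩
  · exact ⟨hq, by rw [T9a_N_self hq]; exact hqV⟩
  · intro t ht x
    simp only
    rw [T9a_N_hom q t ht]
  · simp only
    rw [T9a_N_self hq, h3]
  · rintro x ⟨hx, hxV⟩
    apply ContDiffAt.contDiffWithinAt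
    exact (hV _ hxV).1.comp x (T9a_N_smooth q hx)
  · rintro x ⟨hx, hxV⟩
    have h9 := (hV _ hxV).2
    rw [hLN x hx] at h9
    exact h9

/-- entry of the contravariant rank one matrix -/
noncomputable def T9a_M (S : Geo) (z : E4 → ℂ) (x : E4) : Matrix (Fin 3) (Fin 3) ℂ :=
  (cM (S.L x) - z x • (1 : Matrix (Fin 3) (Fin 3) ℂ)).adjugate * (cM (S.G x)).adjugate

theorem T9a_adj_smooth {W : Set E4} {A : E4 → Matrix (Fin 3) (Fin 3) ℂ}
    (hA : ∀ i j, ContDiffOn ℝ ∞ (fun x => A x i j) W) (i j : Fin 3) :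
    ContDiffOn ℝ ∞ (fun x => (A x).adjugate i j) W := by
  simp only [Matrix.adjugate_fin_three]
  fin_cases i <;> fin_cases j <;> simp <;>
    first
      | exact ((hA _ _).mul (hA _ _)).sub ((hA _ _).mul (hA _ _))
      | exact (((hA _ _).mul (hA _ _)).neg).add ((hA _ _).mul (hA _ _))

theorem T9a_M_smooth (S : Geo) {W : Set E4} (hW : OCone W) {z : E4 → ℂ} (hz : ContDiffOn ℝ ∞ z W)
    (i j : Fin 3) : ContDiffOn ℝ ∞ (fun x => T9a_M S z x i j) W := by
  have hsub : W ⊆ {0}ᶜ := by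
    intro x hx h0
    rw [mem_singleton_iff] at h0
    exact hW.zero (h0 ▸ hx)
  have hent : ∀ (f : E4 → M3), Sm f → ∀ i j : Fin 3, ContDiffOn ℝ ∞ (fun x => cM (f x) i j) W := by
    intro f hf i j x hx
    have h1 : ContDiffWithinAt ℝ ∞ (fun x => f x i j) W x :=
      ((T3a_entry ∞ i j).comp_contDiffOn (hf.mono hsub)) x hx
    exact Complex.ofRealCLM.contDiff.contDiffAt.comp_contDiffWithinAt x h1
  have h1 : ∀ i j : Fin 3, ContDiffOn ℝ ∞
      (fun x => (cM (S.L x) - z x • (1 : Matrix (Fin 3) (Fin 3) ℂ)) i j) W := by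
    intro i j
    simp only [Matrix.sub_apply, Matrix.smul_apply, smul_eq_mul]
    exact (hent S.L S.smL i j).sub (hz.mul contDiffOn_const)
  have h2 := T9a_adj_smooth h1
  have h3 := T9a_adj_smooth (hent S.G S.smG)
  unfold T9a_M
  simp only [Matrix.mul_apply]
  exact ContDiffOn.sum fun l _ => (h2 i l).mul (h3 l j)

/-- smooth complex root field near a nonreal eigenvalue -/
theorem T9_root (S : Geo) {p : E4} (hp : p ≠ 0) {z₀ : ℂ} (hz : z₀.im ≠ 0)
    (hroot : (cM (S.L p) - z₀ • (1 : Matrix (Fin 3) (Fin 3) ℂ)).det = 0) :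
    ∃ (W : Set E4) (z : E4 → ℂ) (T : E4 → Fin 3 → ℂ), OCone W ∧ p ∈ W ∧ Hom z ∧ Hom T ∧ z p = z₀ ∧
      ContDiffOn ℝ ∞ z W ∧ ContDiffOn ℝ ∞ T W ∧
      ∀ x ∈ W, (z x).im ≠ 0 ∧ (cM (S.L x) - z x • (1 : Matrix (Fin 3) (Fin 3) ℂ)).det = 0 ∧
        (cM (S.L x) - z x • (1 : Matrix (Fin 3) (Fin 3) ℂ)).adjugate.trace ≠ 0 ∧
        (cM (S.L x) - z x • (1 : Matrix (Fin 3) (Fin 3) ℂ)).adjugate =
          vecMulVec (T x) (cM (S.G x) *ᵥ T x) := by
  obtain ⟨W, z, hW, hpW, hzh, hzp, hzs, hzr⟩ := T9a_exists S hp hz hroot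
  have hne : ∀ x ∈ W, x ≠ 0 := by
    rintro x hx rfl
    exact hW.zero hx
  have hGs : ∀ x, x ≠ 0 → (cM (S.G x))ᵀ = cM (S.G x) := by
    intro x hx
    rw [T9a_cM_transpose, S.symm x hx]
  have hGd : ∀ x, x ≠ 0 → (cM (S.G x)).det ≠ 0 := by
    intro x hx
    rw [T9a_cM_det]
    exact_mod_cast (S.det_neg x hx).ne
  have hSA : ∀ x, x ≠ 0 → (cM (S.G x) * (cM (S.L x) - z x • (1 : Matrix (Fin 3) (Fin 3) ℂ)))ᵀ =
      cM (S.G x) * (cM (S.L x) - z x • (1 : Matrix (Fin 3) (Fin 3) ℂ)) := by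
    intro x hx
    rw [Matrix.mul_sub, Matrix.transpose_sub, ← T9a_cM_mul, T9a_cM_transpose, S.selfadj x hx,
      Matrix.mul_smul, Matrix.mul_one, Matrix.transpose_smul, hGs x hx]
  have h0 : (cM (S.L p) - z p • (1 : Matrix (Fin 3) (Fin 3) ℂ)).adjugate ≠ 0 := by
    intro h
    apply T9a_simple (S.L p) (hzr p hpW).1 (hzr p hpW).2
    rw [h]
    simp
  obtain ⟨i, hi⟩ := T9a_diag (hGs p hp) (hGd p hp) (hSA p hp) (hzr p hpW).2 h0
  set D : E4 → ℂ := fun x => (cM (S.G x)).det * T9a_M S z x i i with hD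
  have hDp : D p ≠ 0 := mul_ne_zero (hGd p hp) hi
  obtain ⟨r, U, hU, hDU, hrs, hr⟩ := T9a_sqrt hDp
  have hsub : W ⊆ {0}ᶜ := by
    intro x hx h0
    rw [mem_singleton_iff] at h0
    exact hW.zero (h0 ▸ hx)
  have hDs : ContDiffOn ℝ ∞ D W := by
    have h1 : ContDiffOn ℝ ∞ (fun x => (cM (S.G x)).det) W := by
      simp only [T9a_cM_det]
      intro x hx
      have h1 : ContDiffWithinAt ℝ ∞ (fun x => (S.G x).det) W x :=
        ((T3a_det_smooth ∞).comp_contDiffOn (S.smG.mono hsub)) x hx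
      exact Complex.ofRealCLM.contDiff.contDiffAt.comp_contDiffWithinAt x h1
    exact h1.mul (T9a_M_smooth S hW hzs i i)
  have hMh : ∀ t : ℝ, 0 < t → ∀ x, T9a_M S z (t • x) = T9a_M S z x := by
    intro t ht x
    unfold T9a_M
    rw [S.homL t ht, S.homG t ht, hzh t ht]
  have hDh : ∀ t : ℝ, 0 < t → ∀ x, D (t • x) = D x := by
    intro t ht x
    simp only [hD]
    rw [S.homG t ht, hMh t ht]
  refine ⟨{x | x ∈ W ∧ D x ∈ U}, z, fun x j => (r (D x))⁻¹ * T9a_M S z x j i, ⟨?_, ?_, ?_⟩,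
    ⟨hpW, hDU⟩, hzh, ?_, hzp, hzs.mono fun x hx => hx.1, ?_, ?_⟩
  · exact hDs.continuousOn.isOpen_inter_preimage hW.isOpen hU
  · exact fun h => hW.zero h.1
  · rintro x ⟨hx, hx2⟩ t ht
    refine ⟨hW.smul x hx t ht, ?_⟩
    rw [hDh t ht]
    exact hx2
  · intro t ht x
    funext j
    simp only
    rw [hDh t ht, hMh t ht]
  · rw [contDiffOn_pi]
    intro j
    have hsub' : {x | x ∈ W ∧ D x ∈ U} ⊆ W := fun x hx => hx.1
    have h1 : ContDiffOn ℝ ∞ (fun x => r (D x)) {x | x ∈ W ∧ D x ∈ U} :=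
      hrs.comp (hDs.mono hsub') (fun x hx => hx.2)
    exact (h1.inv (fun x hx => (hr _ hx.2).1)).mul ((T9a_M_smooth S hW hzs j i).mono hsub')
  · rintro x ⟨hx, hxU⟩
    refine ⟨(hzr x hx).1, (hzr x hx).2, T9a_simple _ (hzr x hx).1 (hzr x hx).2, ?_⟩
    exact T9a_fact (hGs x (hne x hx)) (hGd x (hne x hx)) (hSA x (hne x hx)) (hzr x hx).2 i
      (r (D x)) (hr _ hxU).1 (hr _ hxU).2

end Pool.Agent.helper68.B2
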