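import Mathlib
import Pool.Agent.helper68.B2.Defs
import Pool.Agent.helper25.B2.GDefs
import Pool.Agent.helper31.B2.B0a
import Pool.Agent.helper71.B2.T2a
import Pool.Agent.helper9.B2.T1a
import Pool.Agent.helper80.B2.W1
import Pool.Agent.helper44.B2.T9a
import Pool.Agent.helper26.B2.T9b

/-! # MP_b2b189_gt: module T9c, the chart of a nonreal root -/

set_option autoImplicit false

namespace Pool.Agent.helper68.B2

open scoped ContDiff Topology Matrix
open Matrix Set Filter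

theorem T9c_adj_expand {K : Type*} [Field K] (A : Matrix (Fin 3) (Fin 3) K) (c : K) :
    (A - c • (1 : Matrix (Fin 3) (Fin 3) K)).adjugate =
      A.adjugate + c • (A - A.trace • (1 : Matrix (Fin 3) (Fin 3) K)) +
        c ^ 2 • (1 : Matrix (Fin 3) (Fin 3) K) := by
  rw [Matrix.adjugate_fin_three, Matrix.adjugate_fin_three, Matrix.trace_fin_three]
  ext i j
  fin_cases i <;> fin_cases j <;> simp <;> ring

/-- complexification of a real vector -/
noncomputable def T9c_c (v : V3) : Fin 3 → ℂ := fun i => ((v i : ℝ) : ℂ)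

theorem T9c_mulVec (A : M3) (v : V3) : cM A *ᵥ T9c_c v = T9c_c (A *ᵥ v) := by
  funext i
  simp [Matrix.mulVec, dotProduct, T9c_c, T9a_cM_apply]

theorem T9c_dot (u v : V3) : T9c_c u ⬝ᵥ T9c_c v = ((u ⬝ᵥ v : ℝ) : ℂ) := by
  simp [dotProduct, T9c_c]

/-- the partial derivative in `x` of `det (L x - c)` for complex `c` -/
theorem T9c_dx (S : Geo) {x : E4} (hx : x ≠ 0) (c : ℂ) (v : V3) :
    fderiv ℝ (fun y => T9a_F S (y, c)) x (fld v x) =
      2 * (T9c_c v ⬝ᵥ (cM (S.G x) *ᵥ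
        ((cM (S.L x) - c • (1 : Matrix (Fin 3) (Fin 3) ℂ)).adjugate *ᵥ T9c_c (S.lam x)))) := by
  have hL := T3a_L_smooth S hx
  have hd1 : DifferentiableAt ℝ (fun y => (S.L y).det) x :=
    ((T3a_det_smooth ∞).contDiffAt.comp x hL).differentiableAt (by simp)
  have hd2 : DifferentiableAt ℝ (fun y => (S.L y).adjugate.trace) x :=
    ((T3a_adj_smooth ∞).contDiffAt.comp x hL).differentiableAt (by simp)
  have hd3 : DifferentiableAt ℝ (fun y => (S.L y).trace) x :=
    ((T3a_trace_smooth ∞).contDiffAt.comp x hL).differentiableAt (by simp)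
  -- real derivatives
  have r0 := d_det S hx 0 v
  have r1 := d_det S hx 1 v
  have r2 := d_tr S hx v
  have e1 : (fun y => (S.L y - (1 : ℝ) • (1 : M3)).det) =
      fun y => (S.L y).det - (S.L y).adjugate.trace + (S.L y).trace - 1 := by
    funext y
    rw [T3a_det_expand]
    ring
  have e0 : (fun y => (S.L y - (0 : ℝ) • (1 : M3)).det) = fun y => (S.L y).det := by
    funext y
    rw [zero_smul, sub_zero]
  rw [e0] at r0
  rw [e1] at r1
  have r1' : Dv (fun y => (S.L y).det - (S.L y).adjugate.trace + (S.L y).trace - 1) v x =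
      Dv (fun y => (S.L y).det) v x - Dv (fun y => (S.L y).adjugate.trace) v x
        + Dv (fun y => (S.L y).trace) v x := by
    unfold Dv
    have h := (((hd1.hasFDerivAt.sub hd2.hasFDerivAt).add hd3.hasFDerivAt).sub_const (1 : ℝ))
    have h' : fderiv ℝ (fun y => (S.L y).det - (S.L y).adjugate.trace + (S.L y).trace - 1) x = _ :=
      h.fderiv
    rw [h']
    simp
  rw [r1', r0, r2] at r1
  have hK : ∀ t : ℝ, S.g x (S.K t x *ᵥ S.lam x) v =
      S.g x ((S.L x).adjugate *ᵥ S.lam x) v + t * S.g x ((S.L x - (S.L x).trace • (1 : M3)) *ᵥ S.lam x) v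
        + t ^ 2 * S.g x (S.lam x) v := by
    intro t
    unfold Geo.K
    rw [T9c_adj_expand]
    unfold Geo.g bil
    rw [Matrix.add_mulVec, Matrix.add_mulVec, Matrix.smul_mulVec, Matrix.smul_mulVec, Matrix.one_mulVec,
      add_dotProduct, add_dotProduct, smul_dotProduct, smul_dotProduct, smul_eq_mul, smul_eq_mul]
  rw [hK 1, hK 0] at r1
  rw [hK 0] at r0
  -- complex derivative
  have hc1 : HasFDerivAt (fun y => (((S.L y).det : ℝ) : ℂ))
      (Complex.ofRealCLM.comp (fderiv ℝ (fun y => (S.L y).det) x)) x :=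
    Complex.ofRealCLM.hasFDerivAt.comp x hd1.hasFDerivAt
  have hc2 : HasFDerivAt (fun y => (((S.L y).adjugate.trace : ℝ) : ℂ))
      (Complex.ofRealCLM.comp (fderiv ℝ (fun y => (S.L y).adjugate.trace) x)) x :=
    Complex.ofRealCLM.hasFDerivAt.comp x hd2.hasFDerivAt
  have hc3 : HasFDerivAt (fun y => (((S.L y).trace : ℝ) : ℂ))
      (Complex.ofRealCLM.comp (fderiv ℝ (fun y => (S.L y).trace) x)) x :=
    Complex.ofRealCLM.hasFDerivAt.comp x hd3.hasFDerivAt
  have hF : HasFDerivAt (fun y => T9a_F S (y, c))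
      (Complex.ofRealCLM.comp (fderiv ℝ (fun y => (S.L y).det) x)
        - c • Complex.ofRealCLM.comp (fderiv ℝ (fun y => (S.L y).adjugate.trace) x)
        + c ^ 2 • Complex.ofRealCLM.comp (fderiv ℝ (fun y => (S.L y).trace) x)) x := by
    unfold T9a_F
    exact ((hc1.sub (hc2.const_mul c)).add (hc3.const_mul (c ^ 2))).sub_const (c ^ 3)
  rw [hF.fderiv]
  have q0 : fderiv ℝ (fun y => (S.L y).det) x (fld v x) =
      2 * S.g x ((S.L x).adjugate *ᵥ S.lam x) v := by
    have : Dv (fun y => (S.L y).det) v x = 2 * S.g x ((S.L x).adjugate *ᵥ S.lam x) v := by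
      rw [r0]; ring
    exact this
  have q1 : fderiv ℝ (fun y => (S.L y).adjugate.trace) x (fld v x) =
      -2 * S.g x ((S.L x - (S.L x).trace • (1 : M3)) *ᵥ S.lam x) v := by
    have : Dv (fun y => (S.L y).adjugate.trace) v x =
        -2 * S.g x ((S.L x - (S.L x).trace • (1 : M3)) *ᵥ S.lam x) v := by
      linarith
    exact this
  have q2 : fderiv ℝ (fun y => (S.L y).trace) x (fld v x) = 2 * S.g x (S.lam x) v := r2
  have hC : ∀ M : M3, T9c_c v ⬝ᵥ (cM (S.G x) *ᵥ (cM M *ᵥ T9c_c (S.lam x))) =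
      ((S.g x (M *ᵥ S.lam x) v : ℝ) : ℂ) := by
    intro M
    rw [T9c_mulVec, T9c_mulVec, T9c_dot]
    congr 1
    rw [T.g_symm S hx]
    rfl
  have hone : cM (1 : M3) = 1 := by
    unfold cM
    exact Matrix.map_one _ (map_zero _) (map_one _)
  have hsub : cM (S.L x) - (cM (S.L x)).trace • (1 : Matrix (Fin 3) (Fin 3) ℂ) =
      cM (S.L x - (S.L x).trace • (1 : M3)) := by
    rw [T9a_cM_trace]
    ext i j
    by_cases hij : i = j
    · subst hij
      simp [T9a_cM_apply]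
    · simp [T9a_cM_apply, Matrix.one_apply_ne hij]
  rw [T9c_adj_expand, hsub, T9a_cM_adj, ← hone, Matrix.add_mulVec, Matrix.add_mulVec,
    Matrix.smul_mulVec, Matrix.smul_mulVec, Matrix.mulVec_add, Matrix.mulVec_add, Matrix.mulVec_smul,
    Matrix.mulVec_smul, dotProduct_add, dotProduct_add, dotProduct_smul, dotProduct_smul, hC, hC, hC,
    Matrix.one_mulVec]
  simp only [ContinuousLinearMap.add_apply, ContinuousLinearMap.sub_apply, ContinuousLinearMap.smul_apply,
    ContinuousLinearMap.comp_apply, Complex.ofRealCLM_apply, q0, q1, q2, smul_eq_mul]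
  push_cast
  ring

/-- the complex frame form -/
noncomputable def T9c_al (S : Geo) (T : E4 → Fin 3 → ℂ) (x : E4) (j : Fin 3) : ℂ :=
  (cM (S.G x) *ᵥ T x) j / (T x ⬝ᵥ (cM (S.G x) *ᵥ T x))

theorem T9c_tr {S : Geo} {T : E4 → Fin 3 → ℂ} {x : E4} {A : Matrix (Fin 3) (Fin 3) ℂ}
    (hadj : A.adjugate = vecMulVec (T x) (cM (S.G x) *ᵥ T x)) :
    A.adjugate.trace = T x ⬝ᵥ (cM (S.G x) *ᵥ T x) := by
  rw [hadj, Matrix.trace_vecMulVec]

theorem T9c_eig {S : Geo} {T : E4 → Fin 3 → ℂ} {x : E4} {A : Matrix (Fin 3) (Fin 3) ℂ}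
    (hd : A.det = 0) (htr : A.adjugate.trace ≠ 0)
    (hadj : A.adjugate = vecMulVec (T x) (cM (S.G x) *ᵥ T x)) : A *ᵥ T x = 0 := by
  have h1 : A * A.adjugate = 0 := by
    rw [Matrix.mul_adjugate, hd, zero_smul]
  have hGT : cM (S.G x) *ᵥ T x ≠ 0 := by
    intro h0
    apply htr
    rw [T9c_tr hadj, h0, dotProduct_zero]
  rw [hadj, Matrix.mul_vecMulVec] at h1
  obtain ⟨k, hk⟩ := Function.ne_iff.1 hGT
  funext j
  have h4 := congrFun (congrFun h1 j) k
  rw [Matrix.vecMulVec_apply] at h4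
  exact (mul_eq_zero.1 h4).resolve_right hk

/-- conjugate vector -/
noncomputable def T9c_conj (v : Fin 3 → ℂ) : Fin 3 → ℂ := fun i => starRingEnd ℂ (v i)

theorem T9c_conj_mulVec (A : M3) (v : Fin 3 → ℂ) : cM A *ᵥ T9c_conj v = T9c_conj (cM A *ᵥ v) := by
  funext i
  simp [Matrix.mulVec, dotProduct, T9c_conj, T9a_cM_apply]

theorem T9c_orth (S : Geo) {T : E4 → Fin 3 → ℂ} {x : E4} (hx : x ≠ 0) {z : ℂ} (hz : z.im ≠ 0)
    (he : cM (S.L x) *ᵥ T x = z • T x) : T9c_conj (T x) ⬝ᵥ (cM (S.G x) *ᵥ T x) = 0 := by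
  have hGs : (cM (S.G x))ᵀ = cM (S.G x) := by rw [T9a_cM_transpose, S.symm x hx]
  have hGL : (cM (S.G x) * cM (S.L x))ᵀ = cM (S.G x) * cM (S.L x) := by
    rw [← T9a_cM_mul, T9a_cM_transpose, S.selfadj x hx]
  have hc : cM (S.L x) *ᵥ T9c_conj (T x) = (starRingEnd ℂ z) • T9c_conj (T x) := by
    rw [T9c_conj_mulVec, he]
    funext i
    simp [T9c_conj]
  have hsw : ∀ (M : Matrix (Fin 3) (Fin 3) ℂ) (u w : Fin 3 → ℂ), Mᵀ = M →
      u ⬝ᵥ (M *ᵥ w) = w ⬝ᵥ (M *ᵥ u) := by
    intro M u w hM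
    rw [Matrix.dotProduct_mulVec, ← Matrix.mulVec_transpose, hM, dotProduct_comm]
  have h1 : T9c_conj (T x) ⬝ᵥ ((cM (S.G x) * cM (S.L x)) *ᵥ T x) =
      z * (T9c_conj (T x) ⬝ᵥ (cM (S.G x) *ᵥ T x)) := by
    rw [← Matrix.mulVec_mulVec, he, Matrix.mulVec_smul, dotProduct_smul, smul_eq_mul]
  have h2 : T9c_conj (T x) ⬝ᵥ ((cM (S.G x) * cM (S.L x)) *ᵥ T x) =
      (starRingEnd ℂ z) * (T9c_conj (T x) ⬝ᵥ (cM (S.G x) *ᵥ T x)) := by
    rw [hsw _ _ _ hGL, ← Matrix.mulVec_mulVec, hc, Matrix.mulVec_smul, dotProduct_smul, smul_eq_mul,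
      hsw _ (T x) _ hGs]
  rw [h1] at h2
  have hne : z - starRingEnd ℂ z ≠ 0 := by
    intro h
    apply hz
    have h3 := congrArg Complex.im h
    simp at h3
    linarith
  apply (mul_eq_zero.1 (show (z - starRingEnd ℂ z) * _ = 0 by rw [sub_mul, h2, sub_self])).resolve_left hne

/-- independence of the real and imaginary parts of the form -/
theorem T9c_surj (S : Geo) {T : E4 → Fin 3 → ℂ} {x : E4} (hx : x ≠ 0) {z : ℂ} (hz : z.im ≠ 0)
    (he : cM (S.L x) *ᵥ T x = z • T x) (hN : T x ⬝ᵥ (cM (S.G x) *ᵥ T x) ≠ 0) :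
    Function.Surjective (fun v : V3 => ∑ j, T9c_al S T x j * ((v j : ℝ) : ℂ)) := by
  let ℓ : V3 →ₗ[ℝ] ℂ :=
    { toFun := fun v => ∑ j, T9c_al S T x j * ((v j : ℝ) : ℂ)
      map_add' := by
        intro u v
        simp [mul_add, Finset.sum_add_distrib]
      map_smul' := by
        intro c v
        simp only [Pi.smul_apply, smul_eq_mul, Complex.ofReal_mul, RingHom.id_apply,
          Complex.real_smul, Finset.mul_sum]
        apply Finset.sum_congr rfl
        intro j _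
        ring }
  show Function.Surjective ℓ
  rw [← LinearMap.range_eq_top]
  by_contra hcon
  obtain ⟨f, hf0, hf⟩ := Submodule.exists_le_ker_of_lt_top _ (lt_top_iff_ne_top.2 hcon)
  have hfc : ∀ c : ℂ, f c = c.re * f 1 + c.im * f Complex.I := by
    intro c
    have h1 : c = c.re • (1 : ℂ) + c.im • Complex.I := by
      simp
    conv_lhs => rw [h1]
    rw [map_add, map_smul, map_smul, smul_eq_mul, smul_eq_mul]
  have hfa : ∀ j, f (T9c_al S T x j) = 0 := by
    intro j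
    have h1 : ℓ (ee j) = T9c_al S T x j := by
      show ∑ i, T9c_al S T x i * ((ee j i : ℝ) : ℂ) = _
      rw [Finset.sum_eq_single j]
      · simp [ee]
      · intro b _ hb
        simp [ee, Pi.single_eq_of_ne hb]
      · simp
    rw [← h1]
    exact hf (LinearMap.mem_range_self ℓ _)
  set w : ℂ := ⟨f 1, -f Complex.I⟩ with hw
  have hw0 : w ≠ 0 := by
    intro h
    apply hf0
    apply LinearMap.ext
    intro c
    have h1 : f 1 = 0 := congrArg Complex.re h
    have h2 : f Complex.I = 0 := by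
      have := congrArg Complex.im h
      simp [hw] at this
      exact this
    rw [hfc, h1, h2]
    simp
  have hre : ∀ j, (w * T9c_al S T x j).re = 0 := by
    intro j
    have h1 := hfa j
    rw [hfc] at h1
    rw [Complex.mul_re]
    simp only [hw]
    linarith
  set β : V3 := fun j => (w * T9c_al S T x j).im with hβ
  have hβ' : ∀ j, w * T9c_al S T x j = Complex.I * ((β j : ℝ) : ℂ) := by
    intro j
    apply Complex.ext
    · rw [hre j]; simp
    · simp [hβ]
  have hone : ∑ j, T9c_al S T x j * T x j = 1 := by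
    have h1 : ∑ j, T9c_al S T x j * T x j =
        (T x ⬝ᵥ (cM (S.G x) *ᵥ T x)) / (T x ⬝ᵥ (cM (S.G x) *ᵥ T x)) := by
      unfold T9c_al
      conv_rhs => rw [dotProduct, Finset.sum_div]
      apply Finset.sum_congr rfl
      intro j _
      rw [dotProduct]
      ring
    rw [h1, div_self hN]
  have hzero : ∑ j, T9c_al S T x j * T9c_conj (T x) j = 0 := by
    have h1 : ∑ j, T9c_al S T x j * T9c_conj (T x) j =
        (T9c_conj (T x) ⬝ᵥ (cM (S.G x) *ᵥ T x)) / (T x ⬝ᵥ (cM (S.G x) *ᵥ T x)) := by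
      unfold T9c_al
      conv_rhs => rw [dotProduct, Finset.sum_div]
      apply Finset.sum_congr rfl
      intro j _
      ring
    rw [h1, T9c_orth S hx hz he, zero_div]
  have h1 : w = Complex.I * ∑ j, ((β j : ℝ) : ℂ) * T x j := by
    calc w = w * ∑ j, T9c_al S T x j * T x j := by rw [hone, mul_one]
      _ = ∑ j, (w * T9c_al S T x j) * T x j := by
          rw [Finset.mul_sum]
          apply Finset.sum_congr rfl
          intro j _
          ring
      _ = _ := by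
          rw [Finset.mul_sum]
          apply Finset.sum_congr rfl
          intro j _
          rw [hβ' j]
          ring
  have h2 : (0 : ℂ) = Complex.I * ∑ j, ((β j : ℝ) : ℂ) * T9c_conj (T x) j := by
    calc (0 : ℂ) = w * ∑ j, T9c_al S T x j * T9c_conj (T x) j := by rw [hzero, mul_zero]
      _ = ∑ j, (w * T9c_al S T x j) * T9c_conj (T x) j := by
          rw [Finset.mul_sum]
          apply Finset.sum_congr rfl
          intro j _
          ring
      _ = _ := by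
          rw [Finset.mul_sum]
          apply Finset.sum_congr rfl
          intro j _
          rw [hβ' j]
          ring
  have h3 : ∑ j, ((β j : ℝ) : ℂ) * T9c_conj (T x) j =
      starRingEnd ℂ (∑ j, ((β j : ℝ) : ℂ) * T x j) := by
    rw [map_sum]
    apply Finset.sum_congr rfl
    intro j _
    rw [map_mul, Complex.conj_ofReal]
    rfl
  rw [h3] at h2
  have h4 := (mul_eq_zero.1 h2.symm).resolve_left Complex.I_ne_zero
  rw [map_eq_zero] at h4
  rw [h4, mul_zero] at h1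
  exact hw0 h1

/-- differential of a nonreal root -/
theorem T9c_dz (S : Geo) {W : Set E4} (hW : OCone W) {z : E4 → ℂ} {T : E4 → Fin 3 → ℂ}
    (hz : ContDiffOn ℝ ∞ z W)
    (hd : ∀ x ∈ W, (cM (S.L x) - z x • (1 : Matrix (Fin 3) (Fin 3) ℂ)).det = 0)
    (htr : ∀ x ∈ W, (cM (S.L x) - z x • (1 : Matrix (Fin 3) (Fin 3) ℂ)).adjugate.trace ≠ 0)
    (hadj : ∀ x ∈ W, (cM (S.L x) - z x • (1 : Matrix (Fin 3) (Fin 3) ℂ)).adjugate =
      vecMulVec (T x) (cM (S.G x) *ᵥ T x)) {x : E4} (hx : x ∈ W) (v : V3) :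
    Dv z v x = (2 * ((cM (S.G x) *ᵥ T x) ⬝ᵥ T9c_c (S.lam x))) *
      ∑ j, T9c_al S T x j * ((v j : ℝ) : ℂ) := by
  have hx0 : x ≠ 0 := by
    rintro rfl
    exact hW.zero hx
  have hF : DifferentiableAt ℝ (T9a_F S) (x, z x) := (T9a_F_smooth S hx0 (z x)).differentiableAt (by simp)
  have hm : DifferentiableAt ℝ z x := ((hz x hx).contDiffAt (hW.isOpen.mem_nhds hx)).differentiableAt (by simp)
  have e1 : fderiv ℝ (fun y => T9a_F S (y, z y)) x = 0 := by
    have : (fun y => T9a_F S (y, z y)) =ᶠ[𝓝 x] fun _ => 0 := by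
      filter_upwards [hW.isOpen.mem_nhds hx] with y hy
      rw [T9a_F_eq]
      exact hd y hy
    rw [this.fderiv_eq]
    simp
  have e2 : HasFDerivAt (fun y => T9a_F S (y, z y))
      ((fderiv ℝ (T9a_F S) (x, z x)).comp ((ContinuousLinearMap.id ℝ E4).prod (fderiv ℝ z x))) x := by
    have hpr : HasFDerivAt (fun y : E4 => (y, z y))
        ((ContinuousLinearMap.id ℝ E4).prod (fderiv ℝ z x)) x :=
      (hasFDerivAt_id x).prodMk hm.hasFDerivAt
    exact hF.hasFDerivAt.comp x hpr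
  have e3 : HasFDerivAt (fun y => T9a_F S (y, z x))
      ((fderiv ℝ (T9a_F S) (x, z x)).comp ((ContinuousLinearMap.id ℝ E4).prod 0)) x := by
    have hpr : HasFDerivAt (fun y : E4 => (y, z x))
        ((ContinuousLinearMap.id ℝ E4).prod (0 : E4 →L[ℝ] ℂ)) x :=
      (hasFDerivAt_id x).prodMk (hasFDerivAt_const (z x) x)
    have hF' : HasFDerivAt (T9a_F S) (fderiv ℝ (T9a_F S) (x, z x)) ((fun y : E4 => (y, z x)) x) :=
      hF.hasFDerivAt
    exact hF'.comp x hpr
  have e4 := T9c_dx S hx0 (z x) v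
  rw [e3.fderiv] at e4
  rw [e2.fderiv] at e1
  have e5 := congrArg (fun A => A (fld v x)) e1
  simp only [ContinuousLinearMap.coe_comp, Function.comp_apply, ContinuousLinearMap.prod_apply,
    ContinuousLinearMap.coe_id', id_eq, _root_.zero_apply] at e5 e4
  have e6 := congrArg (fun A => A (fderiv ℝ z x (fld v x))) (T9a_F_dz S hx0 (z x))
  simp only [ContinuousLinearMap.coe_comp, Function.comp_apply, ContinuousLinearMap.inr_apply,
    FunLike.coe_smul, Pi.smul_apply, ContinuousLinearMap.coe_id', id_eq, smul_eq_mul] at e6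
  have e7 : (fld v x, fderiv ℝ z x (fld v x)) = (fld v x, (0 : ℂ)) + (0, fderiv ℝ z x (fld v x)) := by
    simp
  rw [e7, map_add, e6, e4, T9c_tr (hadj x hx), hadj x hx] at e5
  have hN : T x ⬝ᵥ (cM (S.G x) *ᵥ T x) ≠ 0 := by
    rw [← T9c_tr (hadj x hx)]
    exact htr x hx
  have hGs : (cM (S.G x))ᵀ = cM (S.G x) := by rw [T9a_cM_transpose, S.symm x hx0]
  have e8 : T9c_c v ⬝ᵥ (cM (S.G x) *ᵥ (vecMulVec (T x) (cM (S.G x) *ᵥ T x) *ᵥ T9c_c (S.lam x))) =
      ((cM (S.G x) *ᵥ T x) ⬝ᵥ T9c_c (S.lam x)) * (T9c_c v ⬝ᵥ (cM (S.G x) *ᵥ T x)) := by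
    rw [Matrix.vecMulVec_mulVec, op_smul_eq_smul, Matrix.mulVec_smul, dotProduct_smul, smul_eq_mul]
  have e9 : (T x ⬝ᵥ (cM (S.G x) *ᵥ T x)) * ∑ j, T9c_al S T x j * ((v j : ℝ) : ℂ) =
      T9c_c v ⬝ᵥ (cM (S.G x) *ᵥ T x) := by
    rw [Finset.mul_sum]
    show _ = ∑ j, T9c_c v j * (cM (S.G x) *ᵥ T x) j
    apply Finset.sum_congr rfl
    intro j _
    unfold T9c_al T9c_c
    field_simp
  rw [e8] at e5
  unfold Dv
  apply mul_left_cancel₀ hN
  rw [← mul_assoc, mul_comm (T x ⬝ᵥ (cM (S.G x) *ᵥ T x)) (2 * _), mul_assoc, e9]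
  linear_combination -e5

theorem T9c_form (α : E4 → V3) (x w : E4) : form α x w = ∑ j, α x j * comps x w j := by
  rw [W1_form_apply]
  apply Finset.sum_congr rfl
  intro j _
  unfold comps
  ring

theorem T9c_form_smooth {α : E4 → V3} {U : Set E4} (hU : IsOpen U) (h0 : (0 : E4) ∉ U)
    (hα : ContDiffOn ℝ ∞ α U) : ContDiffOn ℝ ∞ (form α) U := by
  unfold form
  apply ContDiffOn.sum
  intro i _
  have h1 : ContDiffOn ℝ ∞ (fun x => α x i / ‖x‖ ^ 2) U := by
    apply ContDiffOn.div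
    · exact (contDiffOn_pi.1 hα) i
    · exact (contDiff_norm_sq ℝ).contDiffOn
    · intro x hx
      have : x ≠ 0 := by
        rintro rfl
        exact h0 hx
      exact pow_ne_zero 2 (norm_ne_zero_iff.2 this)
  have h2 : ContDiff ℝ ∞ (fun x : E4 => innerSL ℝ (J i x)) :=
    (innerSL ℝ).contDiff.comp (J i).contDiff
  exact h1.smul h2.contDiffOn

theorem T9c_prim (S : Geo) {W : Set E4} (hW : OCone W) (α : E4 → V3) (hα : ContDiffOn ℝ ∞ α W)
    (hh : Hom α) (hc : ∀ x ∈ W, ∀ i j, Dv (fun y => α y j) (ee i) x - Dv (fun y => α y i) (ee j) x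
      = 2 * ∑ k, eps i j k * α x k) {p : E4} (hp : p ∈ W) :
    ∃ V : Set E4, IsOpen V ∧ p ∈ V ∧ V ⊆ W ∧ ∃ f : E4 → ℝ, ContDiffOn ℝ ∞ f V ∧
      ∀ y ∈ V, HasFDerivAt f (form α y) y := by
  obtain ⟨V, hV, hVW, f, hf⟩ := W1_poincare α W hW.isOpen hW.zero (hα.of_le (by simp)) (by
    intro x hx
    have hx0 : x ≠ 0 := by
      rintro rfl
      exact hW.zero hx
    exact hh.radial hx0) hc p hp
  refine ⟨interior V, isOpen_interior, mem_interior_iff_mem_nhds.2 hV,
    fun x hx => hVW (interior_subset hx), f, ?_, fun y hy => hf y (interior_subset hy)⟩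
  rw [contDiffOn_infty_iff_fderiv_of_isOpen isOpen_interior]
  refine ⟨fun y hy => (hf y (interior_subset hy)).differentiableAt.differentiableWithinAt, ?_⟩
  have h1 : ContDiffOn ℝ ∞ (form α) (interior V) :=
    (T9c_form_smooth hW.isOpen hW.zero hα).mono fun x hx => hVW (interior_subset hx)
  exact h1.congr fun y hy => (hf y (interior_subset hy)).fderiv

/-- the chart of a nonreal root, input of `W3_holo` -/
theorem T9_chart (S : Geo) {p : E4} (hp : p ≠ 0) {z₀ : ℂ} (hz : z₀.im ≠ 0)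
    (hroot : (cM (S.L p) - z₀ • (1 : Matrix (Fin 3) (Fin 3) ℂ)).det = 0) :
    ∃ (U : Set E4) (z ζ κ : E4 → ℂ), U ∈ 𝓝 p ∧ z p = z₀ ∧ ContinuousOn z U ∧ ContDiffOn ℝ ∞ ζ U ∧
      (∀ x ∈ U, (z x).im ≠ 0 ∧ (cM (S.L x) - z x • (1 : Matrix (Fin 3) (Fin 3) ℂ)).det = 0) ∧
      (∀ x ∈ U, HasFDerivAt z (κ x • fderiv ℝ ζ x) x) ∧ Function.Surjective (fderiv ℝ ζ p) := by
  obtain ⟨W, z, T, hW, hpW, hzh, hTh, hzp, hzs, hTs, hall⟩ := T9_root S hp hz hroot
  have hne : ∀ x ∈ W, x ≠ 0 := by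
    rintro x hx rfl
    exact hW.zero hx
  have hsub : W ⊆ {0}ᶜ := by
    intro x hx h0
    rw [mem_singleton_iff] at h0
    exact hW.zero (h0 ▸ hx)
  have hd := fun x hx => (hall x hx).2.1
  have htr := fun x hx => (hall x hx).2.2.1
  have hadj := fun x hx => (hall x hx).2.2.2
  have hN : ∀ x ∈ W, T x ⬝ᵥ (cM (S.G x) *ᵥ T x) ≠ 0 := by
    intro x hx
    rw [← T9c_tr (hadj x hx)]
    exact htr x hx
  -- smoothness of the form
  have hGent : ∀ i j : Fin 3, ContDiffOn ℝ ∞ (fun x => cM (S.G x) i j) W := by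
    intro i j x hx
    have h1 : ContDiffWithinAt ℝ ∞ (fun x => S.G x i j) W x :=
      ((T3a_entry ∞ i j).comp_contDiffOn (S.smG.mono hsub)) x hx
    exact Complex.ofRealCLM.contDiff.contDiffAt.comp_contDiffWithinAt x h1
  have hTj : ∀ j : Fin 3, ContDiffOn ℝ ∞ (fun x => T x j) W := fun j => contDiffOn_pi.1 hTs j
  have hGTj : ∀ j : Fin 3, ContDiffOn ℝ ∞ (fun x => (cM (S.G x) *ᵥ T x) j) W := by
    intro j
    simp only [Matrix.mulVec, dotProduct]
    exact ContDiffOn.sum fun l _ => (hGent j l).mul (hTj l)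
  have hNs : ContDiffOn ℝ ∞ (fun x => T x ⬝ᵥ (cM (S.G x) *ᵥ T x)) W := by
    simp only [dotProduct]
    exact ContDiffOn.sum fun l _ => (hTj l).mul (hGTj l)
  have hal : ∀ j : Fin 3, ContDiffOn ℝ ∞ (fun x => T9c_al S T x j) W := by
    intro j
    have h1 := (hGTj j).mul (hNs.inv hN)
    exact h1.congr fun x _ => by rw [T9c_al, div_eq_mul_inv]; rfl
  have halh : ∀ t : ℝ, 0 < t → ∀ x, T9c_al S T (t • x) = T9c_al S T x := by
    intro t ht x
    funext j
    unfold T9c_al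
    rw [S.homG t ht, hTh t ht]
  set αr : E4 → V3 := fun x j => (T9c_al S T x j).re with hαr
  set αi : E4 → V3 := fun x j => (T9c_al S T x j).im with hαi
  have hαrs : ContDiffOn ℝ ∞ αr W := by
    rw [contDiffOn_pi]
    intro j x hx
    exact Complex.reCLM.contDiff.contDiffAt.comp_contDiffWithinAt x (hal j x hx)
  have hαis : ContDiffOn ℝ ∞ αi W := by
    rw [contDiffOn_pi]
    intro j x hx
    exact Complex.imCLM.contDiff.contDiffAt.comp_contDiffWithinAt x (hal j x hx)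
  have hαrh : Hom αr := by
    intro t ht x
    simp only [hαr]
    rw [halh t ht]
  have hαih : Hom αi := by
    intro t ht x
    simp only [hαi]
    rw [halh t ht]
  have hda : ∀ x ∈ W, ∀ j, DifferentiableAt ℝ (fun y => T9c_al S T y j) x := by
    intro x hx j
    exact ((hal j x hx).contDiffAt (hW.isOpen.mem_nhds hx)).differentiableAt (by simp)
  have hcl : ∀ x ∈ W, ∀ i j, Dv (fun y => T9c_al S T y j) (ee i) x - Dv (fun y => T9c_al S T y i) (ee j) x
      = 2 * ∑ k, (eps i j k : ℂ) * T9c_al S T x k := by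
    intro x hx i j
    exact T9_closed S hW hzh hTh hzs hTs hd htr hadj hx i j
  have hre : ∀ x ∈ W, ∀ (j : Fin 3) (v : V3), Dv (fun y => αr y j) v x =
      (Dv (fun y => T9c_al S T y j) v x).re := by
    intro x hx j v
    have h1 : HasFDerivAt (fun y => (T9c_al S T y j).re)
        (Complex.reCLM.comp (fderiv ℝ (fun y => T9c_al S T y j) x)) x :=
      Complex.reCLM.hasFDerivAt.comp x (hda x hx j).hasFDerivAt
    unfold Dv
    rw [show (fun y => αr y j) = fun y => (T9c_al S T y j).re from rfl, h1.fderiv]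
    rfl
  have him : ∀ x ∈ W, ∀ (j : Fin 3) (v : V3), Dv (fun y => αi y j) v x =
      (Dv (fun y => T9c_al S T y j) v x).im := by
    intro x hx j v
    have h1 : HasFDerivAt (fun y => (T9c_al S T y j).im)
        (Complex.imCLM.comp (fderiv ℝ (fun y => T9c_al S T y j) x)) x :=
      Complex.imCLM.hasFDerivAt.comp x (hda x hx j).hasFDerivAt
    unfold Dv
    rw [show (fun y => αi y j) = fun y => (T9c_al S T y j).im from rfl, h1.fderiv]
    rfl
  have hcr : ∀ x ∈ W, ∀ i j, Dv (fun y => αr y j) (ee i) x - Dv (fun y => αr y i) (ee j) x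
      = 2 * ∑ k, eps i j k * αr x k := by
    intro x hx i j
    have h1 := congrArg Complex.re (hcl x hx i j)
    rw [hre x hx, hre x hx, ← Complex.sub_re, h1]
    simp [hαr, Fin.sum_univ_three]
  have hci : ∀ x ∈ W, ∀ i j, Dv (fun y => αi y j) (ee i) x - Dv (fun y => αi y i) (ee j) x
      = 2 * ∑ k, eps i j k * αi x k := by
    intro x hx i j
    have h1 := congrArg Complex.im (hcl x hx i j)
    rw [him x hx, him x hx, ← Complex.sub_im, h1]
    simp [hαi, Fin.sum_univ_three]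
  obtain ⟨V₁, hV₁o, hpV₁, hV₁W, f₁, hf₁s, hf₁⟩ := T9c_prim S hW αr hαrs hαrh hcr hpW
  obtain ⟨V₂, hV₂o, hpV₂, hV₂W, f₂, hf₂s, hf₂⟩ := T9c_prim S hW αi hαis hαih hci hpW
  have hfd : ∀ y ∈ V₁ ∩ V₂, HasFDerivAt (fun y => ((f₁ y : ℝ) : ℂ) + ((f₂ y : ℝ) : ℂ) * Complex.I)
      (Complex.ofRealCLM.comp (form αr y) +
        Complex.I • (Complex.ofRealCLM.comp (form αi y))) y := by
    rintro y ⟨hy₁, hy₂⟩
    have h1 : HasFDerivAt (fun y => ((f₁ y : ℝ) : ℂ)) (Complex.ofRealCLM.comp (form αr y)) y :=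
      Complex.ofRealCLM.hasFDerivAt.comp y (hf₁ y hy₁)
    have h2 : HasFDerivAt (fun y => ((f₂ y : ℝ) : ℂ)) (Complex.ofRealCLM.comp (form αi y)) y :=
      Complex.ofRealCLM.hasFDerivAt.comp y (hf₂ y hy₂)
    exact h1.add (h2.mul_const Complex.I)
  have hfe : ∀ y ∈ V₁ ∩ V₂, ∀ w,
      fderiv ℝ (fun y => ((f₁ y : ℝ) : ℂ) + ((f₂ y : ℝ) : ℂ) * Complex.I) y w =
        ∑ j, T9c_al S T y j * ((comps y w j : ℝ) : ℂ) := by
    intro y hy w
    rw [(hfd y hy).fderiv]
    simp only [ContinuousLinearMap.add_apply, ContinuousLinearMap.smul_apply,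
      ContinuousLinearMap.comp_apply, Complex.ofRealCLM_apply, T9c_form, smul_eq_mul]
    rw [Complex.ofReal_sum, Complex.ofReal_sum, Finset.mul_sum, ← Finset.sum_add_distrib]
    apply Finset.sum_congr rfl
    intro j _
    simp only [hαr, hαi]
    push_cast
    conv_rhs => rw [← Complex.re_add_im (T9c_al S T y j)]
    ring
  refine ⟨V₁ ∩ V₂, z, fun y => ((f₁ y : ℝ) : ℂ) + ((f₂ y : ℝ) : ℂ) * Complex.I,
    fun x => 2 * ((cM (S.G x) *ᵥ T x) ⬝ᵥ T9c_c (S.lam x)),
    Filter.inter_mem (hV₁o.mem_nhds hpV₁) (hV₂o.mem_nhds hpV₂), hzp, ?_, ?_, ?_, ?_, ?_⟩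
  · exact hzs.continuousOn.mono fun x hx => hV₁W hx.1
  · intro y hy
    have h1 : ContDiffWithinAt ℝ ∞ (fun y => ((f₁ y : ℝ) : ℂ)) (V₁ ∩ V₂) y :=
      Complex.ofRealCLM.contDiff.contDiffAt.comp_contDiffWithinAt y ((hf₁s y hy.1).mono inter_subset_left)
    have h2 : ContDiffWithinAt ℝ ∞ (fun y => ((f₂ y : ℝ) : ℂ)) (V₁ ∩ V₂) y :=
      Complex.ofRealCLM.contDiff.contDiffAt.comp_contDiffWithinAt y ((hf₂s y hy.2).mono inter_subset_right)
    exact h1.add (h2.mul contDiffWithinAt_const)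
  · intro x hx
    exact ⟨(hall x (hV₁W hx.1)).1, (hall x (hV₁W hx.1)).2.1⟩
  · intro x hx
    have hxW := hV₁W hx.1
    have hx0 := hne x hxW
    have hdz : DifferentiableAt ℝ z x :=
      ((hzs x hxW).contDiffAt (hW.isOpen.mem_nhds hxW)).differentiableAt (by simp)
    convert hdz.hasFDerivAt using 1
    ext w
    rw [ContinuousLinearMap.smul_apply, hfe x hx, fderiv_decomp z hx0 w, hzh.radial hx0,
      T9c_dz S hW hzs hd htr hadj hxW, smul_zero, add_zero, smul_eq_mul]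
  · intro c
    have he : cM (S.L p) *ᵥ T p = z p • T p := by
      have h1 := T9c_eig (hd p hpW) (htr p hpW) (hadj p hpW)
      rw [Matrix.sub_mulVec, Matrix.smul_mulVec, Matrix.one_mulVec, sub_eq_zero] at h1
      exact h1
    obtain ⟨v, hv⟩ := T9c_surj S hp (hall p hpW).1 he (hN p hpW) c
    refine ⟨fld v p, ?_⟩
    rw [hfe p ⟨hpV₁, hpV₂⟩, comps_fld v hp]
    exact hv

end Pool.Agent.helper68.B2
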